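import Mathlib
import Pool.Agent.V11296.Bhargava

/-!
# The Bhargava factorial of the set of members of prime triplets `q, q + 2, q + 6`

The proposed identity for `n!_{P_3} / n!_P` fails for `n = 28`: the prime `29` does not belong to
`P_3`, so that `P_3` meets only the `28` non-zero residue classes modulo `29` and `29` divides
`28!_{P_3}`, while `29` divides neither `28!_P` nor `3! w_2(28) w_3(28) = 24`.
-/

set_option autoImplicit false

namespace Pool.Agent.Results.MP_1b3ee4_nt.FailsAt28

open Finset Pool.Agent.V11296.Bhargava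

/-- The set of all primes, as a set of integers. -/
def primeSet : Set ℤ := {x | ∃ q : ℕ, q.Prime ∧ x = q}

/-- The set `P_3` of all members of triples of primes `q, q + 2, q + 6`. -/
def tripletSet : Set ℤ :=
  {x | ∃ q : ℕ, q.Prime ∧ (q + 2).Prime ∧ (q + 6).Prime ∧ (x = q ∨ x = q + 2 ∨ x = q + 6)}

lemma memB : ∀ x ∈ ([29, 59, 2, 3, 149, 5, 151, 7, 37, 67, 97, 11, 41, 13, 43, 73, 103, 17, 47, 19, 107, 79, 109, 23, 53, 83, 113, 317, 173] : List ℤ), x ∈ primeSet := by
  simp only [List.forall_mem_cons, List.not_mem_nil, false_imp_iff, implies_true, and_true]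
  refine ⟨?_, ?_, ?_, ?_, ?_, ?_, ?_, ?_, ?_, ?_, ?_, ?_, ?_, ?_, ?_, ?_, ?_, ?_, ?_, ?_, ?_, ?_, ?_, ?_, ?_, ?_, ?_, ?_, ?_⟩
  · exact ⟨29, by norm_num, by norm_num⟩
  · exact ⟨59, by norm_num, by norm_num⟩
  · exact ⟨2, by norm_num, by norm_num⟩
  · exact ⟨3, by norm_num, by norm_num⟩
  · exact ⟨149, by norm_num, by norm_num⟩
  · exact ⟨5, by norm_num, by norm_num⟩
  · exact ⟨151, by norm_num, by norm_num⟩
  · exact ⟨7, by norm_num, by norm_num⟩
  · exact ⟨37, by norm_num, by norm_num⟩
  · exact ⟨67, by norm_num, by norm_num⟩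
  · exact ⟨97, by norm_num, by norm_num⟩
  · exact ⟨11, by norm_num, by norm_num⟩
  · exact ⟨41, by norm_num, by norm_num⟩
  · exact ⟨13, by norm_num, by norm_num⟩
  · exact ⟨43, by norm_num, by norm_num⟩
  · exact ⟨73, by norm_num, by norm_num⟩
  · exact ⟨103, by norm_num, by norm_num⟩
  · exact ⟨17, by norm_num, by norm_num⟩
  · exact ⟨47, by norm_num, by norm_num⟩
  · exact ⟨19, by norm_num, by norm_num⟩
  · exact ⟨107, by norm_num, by norm_num⟩
  · exact ⟨79, by norm_num, by norm_num⟩
  · exact ⟨109, by norm_num, by norm_num⟩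
  · exact ⟨23, by norm_num, by norm_num⟩
  · exact ⟨53, by norm_num, by norm_num⟩
  · exact ⟨83, by norm_num, by norm_num⟩
  · exact ⟨113, by norm_num, by norm_num⟩
  · exact ⟨317, by norm_num, by norm_num⟩
  · exact ⟨173, by norm_num, by norm_num⟩
lemma memA : ∀ x ∈ ([5, 7, 11, 13, 17, 19, 23, 41, 43, 47, 101, 103, 107, 109, 113, 191, 193, 197, 227, 229, 233, 311, 313, 317, 347, 349, 353, 461, 463] : List ℤ), x ∈ tripletSet := by
  simp only [List.forall_mem_cons, List.not_mem_nil, false_imp_iff, implies_true, and_true]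
  refine ⟨?_, ?_, ?_, ?_, ?_, ?_, ?_, ?_, ?_, ?_, ?_, ?_, ?_, ?_, ?_, ?_, ?_, ?_, ?_, ?_, ?_, ?_, ?_, ?_, ?_, ?_, ?_, ?_, ?_⟩
  · exact ⟨5, by norm_num, by norm_num, by norm_num, by norm_num⟩
  · exact ⟨5, by norm_num, by norm_num, by norm_num, by norm_num⟩
  · exact ⟨11, by norm_num, by norm_num, by norm_num, by norm_num⟩
  · exact ⟨11, by norm_num, by norm_num, by norm_num, by norm_num⟩
  · exact ⟨17, by norm_num, by norm_num, by norm_num, by norm_num⟩
  · exact ⟨17, by norm_num, by norm_num, by norm_num, by norm_num⟩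
  · exact ⟨17, by norm_num, by norm_num, by norm_num, by norm_num⟩
  · exact ⟨41, by norm_num, by norm_num, by norm_num, by norm_num⟩
  · exact ⟨41, by norm_num, by norm_num, by norm_num, by norm_num⟩
  · exact ⟨41, by norm_num, by norm_num, by norm_num, by norm_num⟩
  · exact ⟨101, by norm_num, by norm_num, by norm_num, by norm_num⟩
  · exact ⟨101, by norm_num, by norm_num, by norm_num, by norm_num⟩
  · exact ⟨107, by norm_num, by norm_num, by norm_num, by norm_num⟩
  · exact ⟨107, by norm_num, by norm_num, by norm_num, by norm_num⟩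
  · exact ⟨107, by norm_num, by norm_num, by norm_num, by norm_num⟩
  · exact ⟨191, by norm_num, by norm_num, by norm_num, by norm_num⟩
  · exact ⟨191, by norm_num, by norm_num, by norm_num, by norm_num⟩
  · exact ⟨191, by norm_num, by norm_num, by norm_num, by norm_num⟩
  · exact ⟨227, by norm_num, by norm_num, by norm_num, by norm_num⟩
  · exact ⟨227, by norm_num, by norm_num, by norm_num, by norm_num⟩
  · exact ⟨227, by norm_num, by norm_num, by norm_num, by norm_num⟩
  · exact ⟨311, by norm_num, by norm_num, by norm_num, by norm_num⟩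
  · exact ⟨311, by norm_num, by norm_num, by norm_num, by norm_num⟩
  · exact ⟨311, by norm_num, by norm_num, by norm_num, by norm_num⟩
  · exact ⟨347, by norm_num, by norm_num, by norm_num, by norm_num⟩
  · exact ⟨347, by norm_num, by norm_num, by norm_num, by norm_num⟩
  · exact ⟨347, by norm_num, by norm_num, by norm_num, by norm_num⟩
  · exact ⟨461, by norm_num, by norm_num, by norm_num, by norm_num⟩
  · exact ⟨461, by norm_num, by norm_num, by norm_num, by norm_num⟩

lemma notDvd : ∀ x ∈ tripletSet, ¬ ((29 : ℕ) : ℤ) ∣ x := by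
  rintro x ⟨q, hq, hq2, hq6, rfl | rfl | rfl⟩ h
  · have h1 : 29 ∣ q := by exact_mod_cast h
    rw [Nat.prime_dvd_prime_iff_eq (by norm_num) hq] at h1
    subst h1
    revert hq6; norm_num
  · have h1 : 29 ∣ q + 2 := by exact_mod_cast h
    rw [Nat.prime_dvd_prime_iff_eq (by norm_num) hq2] at h1
    obtain rfl : q = 27 := by omega
    revert hq; norm_num
  · have h1 : 29 ∣ q + 6 := by exact_mod_cast h
    rw [Nat.prime_dvd_prime_iff_eq (by norm_num) hq6] at h1
    obtain rfl : q = 23 := by omega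
    revert hq2; norm_num

/-- `29` divides the factorial of the smaller set, but not that of the larger one. -/
lemma key {F G : ℕ} (hF : IsBhargavaFactorial tripletSet 28 F) (hG : IsBhargavaFactorial primeSet 28 G) :
    29 ∣ F ∧ ¬ 29 ∣ G := by
  have hp : Nat.Prime 29 := by norm_num
  have : Fact (Nat.Prime 29) := ⟨hp⟩
  refine ⟨?_, ?_⟩
  · obtain ⟨⟨a, ha⟩, h⟩ := hF.2 29 hp
    have h1 := h a ha
    have h2 := val_pos hp (by norm_num) ha notDvd
    rw [← h1] at h2
    exact dvd_of_one_le_padicValNat (by omega)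
  · obtain ⟨⟨a, ha⟩, h⟩ := hG.2 29 hp
    have h1 := h a ha
    have h2 := val_zero hp ha ([29, 59, 2, 3, 149, 5, 151, 7, 37, 67, 97, 11, 41, 13, 43, 73, 103, 17, 47, 19, 107, 79, 109, 23, 53, 83, 113, 317, 173] : List ℤ).toFinset
      (by
        intro x hx
        exact memB x (by simpa using hx)) (by decide) (by decide)
    rw [h2] at h1
    intro hdvd
    have := one_le_padicValNat_of_dvd hG.1 hdvd
    omega

/-- There is an integer `n ≥ 1` for which both factorials `n!_{P_3}` and `n!_P` are defined and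
`n!_{P_3} / n!_P` is different from `3! w_2(n) w_3(n)` (`n` even), `2` (`n` odd). -/
theorem result : ∃ n : ℕ, 1 ≤ n ∧ ∃ F G : ℕ, IsBhargavaFactorial tripletSet n F ∧
    IsBhargavaFactorial primeSet n G ∧
    (F : ℚ) / G ≠ if Even n then ((3).factorial : ℚ) * 2 ^ padicValNat 2 n * 3 ^ padicValNat 3 n
      else 2 := by
  obtain ⟨F, hF⟩ := exists_factorial tripletSet 28 ([5, 7, 11, 13, 17, 19, 23, 41, 43, 47, 101, 103, 107, 109, 113, 191, 193, 197, 227, 229, 233, 311, 313, 317, 347, 349, 353, 461, 463] : List ℤ).toFinset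
    (by
      intro x hx
      exact memA x (by simpa using hx)) (by decide)
  obtain ⟨G, hG⟩ := exists_factorial primeSet 28 ([29, 59, 2, 3, 149, 5, 151, 7, 37, 67, 97, 11, 41, 13, 43, 73, 103, 17, 47, 19, 107, 79, 109, 23, 53, 83, 113, 317, 173] : List ℤ).toFinset
    (by
      intro x hx
      exact memB x (by simpa using hx)) (by decide)
  refine ⟨28, by norm_num, F, G, hF, hG, ?_⟩
  intro h
  have hG0 : (G : ℚ) ≠ 0 := by exact_mod_cast hG.1
  have hv : padicValNat 2 28 = 2 := by
    have h1 : padicValNat 2 28 = padicValNat 2 (2 ^ 2 * 7) := by norm_num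
    rw [h1, padicValNat.mul (by norm_num) (by norm_num), padicValNat.prime_pow,
      padicValNat.eq_zero_of_not_dvd (by norm_num)]
  have hv3 : padicValNat 3 28 = 0 := padicValNat.eq_zero_of_not_dvd (by norm_num)
  rw [if_pos (by decide), hv, hv3, div_eq_iff hG0] at h
  have h2 : F = 24 * G := by
    have : (F : ℚ) = ((24 * G : ℕ) : ℚ) := by
      rw [h]; norm_num [Nat.factorial]
    exact_mod_cast this
  obtain ⟨h3, h4⟩ := key hF hG
  rw [h2, Nat.Prime.dvd_mul (by norm_num)] at h3
  rcases h3 with h3 | h3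
  · revert h3; norm_num
  · exact h4 h3

end Pool.Agent.Results.MP_1b3ee4_nt.FailsAt28
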